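import Pool.Agent.H81.SymBil.Final

set_option autoImplicit false

open Pool.Agent.H81.SymBil

namespace Pool.Agent.Results.MP_dbbb5c_an.SmallTriangle

/-- A generic convex polygon `P` which lies in a triangle `T = t1 t2 t3` such that
`2 s area(T)` is smaller than the area of every parallelogram containing `P`, whenever `P` contains
a translate of `-s T`, has a periodic symplectic billiard orbit, of period six. -/
theorem result (S : Finset (ℝ × ℝ))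
    (hint : (interior (convexHull ℝ (↑S : Set (ℝ × ℝ)))).Nonempty) (hgen : Generic S)
    (t1 t2 t3 : ℝ × ℝ) (hT : 0 < cr (t2 - t1) (t3 - t1))
    (hsub : convexHull ℝ (↑S : Set (ℝ × ℝ)) ⊆ convexHull ℝ ({t1, t2, t3} : Set (ℝ × ℝ)))
    (hpar : ∀ (s : ℝ) (c p a b : ℝ × ℝ), c - s • t1 ∈ convexHull ℝ (↑S : Set (ℝ × ℝ)) →
      c - s • t2 ∈ convexHull ℝ (↑S : Set (ℝ × ℝ)) →
      c - s • t3 ∈ convexHull ℝ (↑S : Set (ℝ × ℝ)) →
      convexHull ℝ (↑S : Set (ℝ × ℝ)) ⊆ Para p a b →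
      s * cr (t2 - t1) (t3 - t1) < |cr a b|) :
    ∃ x : ℕ → ℝ × ℝ, (∀ i, x (i + 6) = x i) ∧
      ∀ i : ℕ,
        x i ∈ frontier (convexHull ℝ (↑S : Set (ℝ × ℝ))) ∧
        x i ∉ Set.extremePoints ℝ (convexHull ℝ (↑S : Set (ℝ × ℝ))) ∧
        x (i + 2) ≠ x i ∧
        ∃ a b : ℝ, (a ≠ 0 ∨ b ≠ 0) ∧
          a * ((x (i + 2)).1 - (x i).1) + b * ((x (i + 2)).2 - (x i).2) = 0 ∧
          (∀ p ∈ convexHull ℝ (↑S : Set (ℝ × ℝ)),
              a * p.1 + b * p.2 ≤ a * (x (i + 1)).1 + b * (x (i + 1)).2) ∧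
          a * (x i).1 + b * (x i).2 < a * (x (i + 1)).1 + b * (x (i + 1)).2 ∧
          ∃ p ∈ convexHull ℝ (↑S : Set (ℝ × ℝ)),
              a * p.1 + b * p.2 < a * (x i).1 + b * (x i).2 := by
  obtain ⟨x1, x2, x3, y1, y2, y3, s1, s2, s3, s4, s5, s6⟩ :=
    exists_orbit hint hgen hT hsub hpar
  exact orbit_of_steps s1 s2 s3 s4 s5 s6

end Pool.Agent.Results.MP_dbbb5c_an.SmallTriangle
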